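import Pool.Agent.helper13.U4.SpecD

set_option autoImplicit false

/-! Row `u4:PH`. -/

namespace Pool.Agent.U4

open Pool.Agent.UL

theorem PH (h1 : PRM_stmt) : PH_stmt := by
  intro k q h v x hP hL hH c τ hc hτ1 hτ2
  obtain ⟨b, e, hb, he, heq, hb0, hb1, hs⟩ := h1 k q h v hP τ (by omega) hτ2
  have hb2 : 1 ≤ b := hb1 hτ1
  obtain ⟨hk, hh, hq, hv⟩ := hP
  have h4 : h % 4 = 0 := by
    obtain ⟨m, rfl⟩ := Nat.exists_eq_add_of_le hk
    rw [hh, pow_add]
    norm_num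
  have hpos : 4 ≤ h := by
    have : 0 < h := by rw [hh]; positivity
    omega
  have hv15 : 15 * h ≤ v + 1 := by
    rw [hv]
    nlinarith
  have hT : ∀ a g, a ≤ 8 → a % 2 = 0 → g % 2 = 1 → g ≤ 3 →
      (2 * q - a) * h + (h - 1 - g) < v ∧ x ((2 * q - a) * h + (h - 1 - g)) (2 * h + 4 + c) = true := by
    intro a g ha1 ha2 hg1 hg2
    obtain ⟨B, hB⟩ : ∃ B, 2 * q - a = 2 * B := ⟨q - a / 2, by omega⟩
    have hB3 : 3 ≤ B := by omega
    have e1 : (2 * q - a) * h + a * h = 2 * q * h := by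
      rw [← Nat.add_mul]
      congr 1
      omega
    have e3 : 2 * h * q = 2 * q * h := by ring
    have hlt : (2 * q - a) * h + (h - 1 - g) < v := by
      rw [e3] at hv
      omega
    refine ⟨hlt, ?_⟩
    have hge : 6 * h ≤ (2 * q - a) * h := Nat.mul_le_mul_right h (by omega)
    have hev : ((2 * q - a) * h) % 2 = 0 := by
      rw [hB, mul_assoc]
      exact Nat.mul_mod_right 2 _
    interval_cases c
    · exact hH.b4 (2 * q - a) (h - 1 - g) (by omega) (by omega) (by omega) hlt.le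
    · exact hH.b5 (2 * q - a) (h - 1 - g) (by omega) (by omega) (by omega) (by omega) hlt.le
    · exact hH.b6 _ (by omega) hlt.le (by omega)
  have hU : ∀ B g, 6 ≤ B → B ≤ 9 → 1 ≤ g → g ≤ 3 → ((e + g) % 4 = 0 ∨ (e + g) % 4 = 3) →
      B * h + (e + g) < v ∧ x (B * h + (e + g)) (2 * h + 8) = true := by
    intro B g hB1 hB2 hg1 hg2 hm
    have hlt : B * h + (e + g) < v := by
      have : B * h ≤ 9 * h := Nat.mul_le_mul_right h hB2
      omega
    have hge : 6 * h ≤ B * h := Nat.mul_le_mul_right h hB1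
    have hm4 : (B * h) % 4 = 0 := by
      obtain ⟨m, hm⟩ : ∃ m, h = 4 * m := ⟨h / 4, by omega⟩
      rw [hm, show B * (4 * m) = 4 * (B * m) by ring]
      exact Nat.mul_mod_right 4 _
    exact ⟨hlt, hH.b8 _ (by omega) hlt.le (by omega)⟩
  obtain ⟨g, hg1, hg2, hg3⟩ : ∃ g, g % 2 = 1 ∧ g ≤ 3 ∧ ((e + g) % 4 = 0 ∨ (e + g) % 4 = 3) := by
    by_cases h5 : e % 4 ≤ 1
    · exact ⟨3, by norm_num, le_rfl, by omega⟩
    · exact ⟨1, by norm_num, by norm_num, by omega⟩
  have fin : ∀ t1 u1 t2 u2 : ℕ, t1 + u1 = τ → t2 + u2 = τ → u1 ≠ u2 → t1 < v → t2 < v → u1 < v → u2 < v →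
      x t1 (2 * h + 4 + c) = true → x t2 (2 * h + 4 + c) = true → x u1 (2 * h + 8) = true → x u2 (2 * h + 8) = true →
      Pr2 v x (4 * h + 12 + c) τ := by
    intro t1 u1 t2 u2 e1 e2 e3 e4 e5 e6 e7 e8 e9 e10 e11
    exact ⟨2 * h + 4 + c, 2 * h + 8, t1, u1, t2, u2, by omega, by omega, by omega, e1, e2, e4, e6, e5, e7, e8, e10, e9,
      e11⟩
  rcases Nat.mod_two_eq_zero_or_one b with hpar | hpar
  · have s1 := hs (8 - b) g (by omega) (by omega) (by omega)
    have s2 := hs (10 - b) g (by omega) (by omega) (by omega)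
    rw [show b + (8 - b) - 1 = 7 by omega] at s1
    rw [show b + (10 - b) - 1 = 9 by omega] at s2
    obtain ⟨t1, t2⟩ := hT (8 - b) g (by omega) (by omega) hg1 hg2
    obtain ⟨t3, t4⟩ := hT (10 - b) g (by omega) (by omega) hg1 hg2
    obtain ⟨u1, u2⟩ := hU 7 g (by omega) (by omega) (by omega) hg2 hg3
    obtain ⟨u3, u4⟩ := hU 9 g (by omega) (by omega) (by omega) hg2 hg3
    exact fin _ _ _ _ s1 s2 (by omega) t1 t3 u1 u3 t2 t4 u2 u4
  · have s1 := hs (7 - b) g (by omega) (by omega) (by omega)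
    have s2 := hs (9 - b) g (by omega) (by omega) (by omega)
    rw [show b + (7 - b) - 1 = 6 by omega] at s1
    rw [show b + (9 - b) - 1 = 8 by omega] at s2
    obtain ⟨t1, t2⟩ := hT (7 - b) g (by omega) (by omega) hg1 hg2
    obtain ⟨t3, t4⟩ := hT (9 - b) g (by omega) (by omega) hg1 hg2
    obtain ⟨u1, u2⟩ := hU 6 g (by omega) (by omega) (by omega) hg2 hg3
    obtain ⟨u3, u4⟩ := hU 8 g (by omega) (by omega) (by omega) hg2 hg3
    exact fin _ _ _ _ s1 s2 (by omega) t1 t3 u1 u3 t2 t4 u2 u4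

end Pool.Agent.U4
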